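import Pool.Agent.H70.NC.Targets
import Pool.Agent.H48.OQ.FMG

/-!
# ALF: an alternating statement is a formula
-/

set_option autoImplicit false

namespace Pool.Agent.H91.NC.ALF

open Finset Filter Pool.Agent.H6.NB Pool.Agent.H70.OQ Pool.Agent.H70.NC
open Pool.Agent.H48.OQ.FMG (ng ng_depth ng_eval)

open Classical in
lemma alt_fm {V : Type} (R : List Bool → Prop) (S t : ℕ) (Ws : List (List Bool))
    (hW : Ws.length ≤ S) (hWs : ∀ w, R w → w ∈ Ws) (k : ℕ) :
    ∀ P : List (List Bool) → (V → Bool) → Prop,
    (∀ ws : List (List Bool), ws.length = k → (∀ w ∈ ws, R w) →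
      ∃ T : Pool.Agent.H68.AC.DT V, T.depth ≤ t ∧ ∀ y, (T.eval y = true ↔ P ws y)) →
    Fm S t k (fun y => decide (Alt R true k (fun ws => P ws y))) ∧
    Fm S t k (fun y => !decide (Alt R false k (fun ws => P ws y))) := by
  induction k with
  | zero =>
    intro P h
    obtain ⟨T, hT, hT2⟩ := h [] rfl (by simp)
    constructor
    · refine ⟨T, hT, fun y => ?_⟩
      change T.eval y = decide (P [] y)
      by_cases hp : P [] y
      · rw [(hT2 y).2 hp]; simp [hp]
      · have : T.eval y = false := by
          rw [← Bool.not_eq_true]; exact fun e => hp ((hT2 y).1 e)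
        rw [this]; simp [hp]
    · refine ⟨ng T, by rw [ng_depth]; exact hT, fun y => ?_⟩
      change (ng T).eval y = !decide (P [] y)
      rw [ng_eval]
      by_cases hp : P [] y
      · rw [(hT2 y).2 hp]; simp [hp]
      · have : T.eval y = false := by
          rw [← Bool.not_eq_true]; exact fun e => hp ((hT2 y).1 e)
        rw [this]; simp [hp]
  | succ k ih =>
    intro P h
    set L : List (List Bool) := Ws.filter (fun w => decide (R w)) with hL
    have hLlen : L.length ≤ S := le_trans (List.length_filter_le _ _) hW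
    have hLmem : ∀ w, w ∈ L ↔ R w := by
      intro w
      rw [hL, List.mem_filter, decide_eq_true_eq]
      exact ⟨fun h => h.2, fun h => ⟨hWs w h, h⟩⟩
    have ih' : ∀ w, R w → _ := fun w hw => ih (fun ws y => P (w :: ws) y) (by
      intro ws hl hws
      refine h (w :: ws) (by simp [hl]) ?_
      intro w' hw'
      rcases List.mem_cons.1 hw' with rfl | h2
      · exact hw
      · exact hws w' h2)
    have hget : ∀ i : Fin L.length, R (L.get i) := fun i => (hLmem _).1 (List.get_mem L i)
    constructor
    · refine ⟨L.length, fun i y => !decide (Alt R false k (fun ws => P (L.get i :: ws) y)),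
        fun _ => false, hLlen, fun i => (ih' _ (hget i)).2, fun y => ?_⟩
      rw [decide_eq_true_eq]
      constructor
      · rintro ⟨w, hw, hA⟩
        obtain ⟨i, hi⟩ := List.mem_iff_get.1 ((hLmem w).2 hw)
        refine ⟨i, ?_⟩
        change (!decide (Alt R false k (fun ws => P (L.get i :: ws) y))) = false
        rw [hi]
        simp [hA]
      · rintro ⟨i, hi⟩
        refine ⟨L.get i, hget i, ?_⟩
        simpa using hi
    · refine ⟨L.length, fun i y => decide (Alt R true k (fun ws => P (L.get i :: ws) y)),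
        fun _ => false, hLlen, fun i => (ih' _ (hget i)).1, fun y => ?_⟩
      rw [Bool.not_eq_true', decide_eq_false_iff_not]
      constructor
      · intro hA
        have hA' : ¬ ∀ w, R w → Alt R true k fun ws => P (w :: ws) y := hA
        push Not at hA'
        obtain ⟨w, hw, hA''⟩ := hA'
        obtain ⟨i, hi⟩ := List.mem_iff_get.1 ((hLmem w).2 hw)
        refine ⟨i, ?_⟩
        change decide (Alt R true k (fun ws => P (L.get i :: ws) y)) = false
        rw [hi, decide_eq_false_iff_not]
        exact hA''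
      · rintro ⟨i, hi⟩ hA
        rw [decide_eq_false_iff_not] at hi
        exact hi (hA (L.get i) (hget i))

theorem conv {X : Type} (O : (X → Bool) → List Bool → Bool) (hO : Lit O)
    (T : Pool.Agent.H6.NB.DT) : ∃ T' : Pool.Agent.H68.AC.DT X, T'.depth ≤ T.depth ∧
      ∀ y, T'.eval y = T.eval (O y) := by
  induction T with
  | leaf b => exact ⟨.leaf b, le_rfl, fun y => rfl⟩
  | node w l r ihl ihr =>
    obtain ⟨l', hl1, hl2⟩ := ihl
    obtain ⟨r', hr1, hr2⟩ := ihr
    rcases hO w with ⟨b, hb⟩ | ⟨v, hv⟩
    · cases b with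
      | false =>
        refine ⟨l', ?_, fun y => ?_⟩
        · simp only [Pool.Agent.H6.NB.DT.depth]; omega
        · simp only [Pool.Agent.H6.NB.DT.eval, hb y, hl2 y]
          simp
      | true =>
        refine ⟨r', ?_, fun y => ?_⟩
        · simp only [Pool.Agent.H6.NB.DT.depth]; omega
        · simp only [Pool.Agent.H6.NB.DT.eval, hb y, hr2 y]
          simp
    · refine ⟨.node v l' r', ?_, fun y => ?_⟩
      · simp only [Pool.Agent.H68.AC.DT.depth, Pool.Agent.H6.NB.DT.depth]; omega
      · simp only [Pool.Agent.H68.AC.DT.eval, Pool.Agent.H6.NB.DT.eval, hv y, hl2 y, hr2 y]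
        cases y v <;> simp

theorem alf (h : Pool.Agent.H6.NB.T_FIS) : T_ALF := by
  classical
  intro V T k g O hO hg
  obtain ⟨Ws, hW1, hW2⟩ := h.1 T
  refine ⟨_, (alt_fm (V := V) (fun w => w.length ≤ T) (2 ^ (T + 1)) T Ws hW1
    (fun w hw => hW2 w hw) k (fun ws y => (g ws).eval (O y) = true) ?_).1, ?_⟩
  · intro ws hl hws
    obtain ⟨T', h1, h2⟩ := conv O hO (g ws)
    exact ⟨T', h1.trans (hg ws hl hws), fun y => by rw [h2]⟩
  · intro y
    rw [decide_eq_true_eq]

end Pool.Agent.H91.NC.ALF
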