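import Pool.Agent.H70.NC.Targets

/-!
# HRD: the members of the language relative to the oracle which is built
-/

set_option autoImplicit false

namespace Pool.Agent.H91.NC.HRD

open Finset Filter Pool.Agent.H6.NB Pool.Agent.H70.OQ Pool.Agent.H70.NC

theorem hrd (h1 : T_SGV) (h2 : T_NDQ) : T_HRD := by
  intro l key F hl hkey E P O hB p x
  obtain ⟨-, hB2⟩ := hB
  have hv : ∀ v : Nq p.1.2 (l p.1.2) p.1.1,
      part p.1.1 O (nsq p.1.2 (l p.1.2) p.1.1 v) = tbq (P p) v := by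
    intro v
    have h3 : part p.1.1 O (nsq p.1.2 (l p.1.2) p.1.1 v) =
        O (tst p.1.1 p.1.2 (l p.1.2) v) := rfl
    have h4 : ∀ i, tst p.1.1 p.1.2 (l p.1.2) v ≠ key i := by
      intro i
      obtain ⟨w, hw⟩ := hkey i
      rw [hw]
      unfold tst
      simp
    rw [h3, hB2 _ h4, (h1 l hl E).1 P p v]
  have h5 := h2 p.1.1 p.1.2 (l p.1.2) (part p.1.1 O) (P p) hv x
  show Nd (part p.1.1 O) (p.1.1 + 1) (l (List.ofFn x).length) (List.ofFn x) ↔ _
  rw [List.length_ofFn]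
  exact h5

end Pool.Agent.H91.NC.HRD
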