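import Pool.Agent.H70.NC.Targets
import Pool.Agent.H48.OQ.FMG

/-!
# MAF: the value of a machine is a decision tree over formulas
-/

set_option autoImplicit false

namespace Pool.Agent.H91.NC.MAF

open Finset Filter Pool.Agent.H6.NB Pool.Agent.H70.OQ Pool.Agent.H70.NC
open Pool.Agent.H48.OQ.FMG (cv cv_depth cv_eval evc)

theorem maf (h1 : T_ALF) (h2 : Pool.Agent.H6.NB.T_FIS) : T_MAF := by
  classical
  intro V k M O a x hO
  obtain ⟨T, hT⟩ : ∃ T, T = M.time x.length := ⟨_, rfl⟩
  obtain ⟨Ws, hW1, hW2⟩ := h2.1 T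
  -- formulas for the questions
  have hz : ∀ z : List Bool, z.length ≤ T → ∃ f : (V → Bool) → Bool, Fm (2 ^ (T + 1)) T k f ∧
      ∀ y, (f y = true ↔ M.ans (O y) a x z) := by
    intro z hzl
    obtain ⟨f, hf1, hf2⟩ := h1 V T k (M.tree a x z) O hO (fun ws hl hws => by
      rw [hT] at hzl hws ⊢
      exact M.tree_depth a x z ws hzl hl hws)
    refine ⟨f, hf1, fun y => ?_⟩
    rw [hf2 y, hT]
    rfl
  choose! F hF1 hF2 using hz
  -- strings of the indices
  let st : Fin (2 ^ (T + 1)) → List Bool := fun i =>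
    if (Ws.getD i.1 []).length ≤ T then Ws.getD i.1 [] else []
  have hst : ∀ i, (st i).length ≤ T := by
    intro i
    show (if (Ws.getD i.1 []).length ≤ T then Ws.getD i.1 [] else []).length ≤ T
    split_ifs with h
    · exact h
    · exact Nat.zero_le _
  have hidx : ∀ z : List Bool, ∃ i : Fin (2 ^ (T + 1)), z.length ≤ T → st i = z := by
    intro z
    by_cases hzl : z.length ≤ T
    · obtain ⟨i, hi, hiz⟩ := List.mem_iff_getElem.1 (hW2 z hzl)
      refine ⟨⟨i, lt_of_lt_of_le hi hW1⟩, fun _ => ?_⟩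
      have h3 : Ws.getD i [] = z := by
        rw [List.getD_eq_getElem _ _ hi, hiz]
      show (if (Ws.getD i []).length ≤ T then Ws.getD i [] else []) = z
      rw [h3, if_pos hzl]
    · exact ⟨⟨0, by positivity⟩, fun h => absurd h hzl⟩
  choose idx hidx using hidx
  refine ⟨fun y => (cv idx (M.out a x)).eval fun i => F (st i) y, ?_, ?_⟩
  · rw [← hT]
    refine ⟨cv idx (M.out a x), fun i y => F (st i) y, ?_, fun i => ?_, fun y => rfl⟩
    · rw [cv_depth, hT]
      exact M.out_depth a x
    · exact hF1 (st i) (hst i)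
  · intro y
    show (cv idx (M.out a x)).eval (fun i => F (st i) y) = true ↔ _
    rw [cv_eval]
    have h3 : (M.out a x).eval (fun z => F (st (idx z)) y) =
        (M.out a x).eval (fun z => decide (M.ans (O y) a x z)) := by
      refine evc (M.out a x) T _ _ (by rw [hT]; exact M.out_short a x) fun z hzl => ?_
      show F (st (idx z)) y = decide (M.ans (O y) a x z)
      rw [hidx z hzl, Bool.eq_iff_iff, hF2 z hzl y, decide_eq_true_eq]
    rw [h3]
    rfl

end Pool.Agent.H91.NC.MAF
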