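import Pool.Agent.H70.NC.Targets
import Pool.Agent.H70.OQ.Basic

/-!
# NSQ: the strings of the nodes
-/

set_option autoImplicit false

namespace Pool.Agent.H91.NC.NSQ

open Finset Filter Pool.Agent.H6.NB Pool.Agent.H70.OQ Pool.Agent.H70.NC

theorem nsq_ : T_NSQ := by
  intro n l i
  induction i with
  | zero =>
    refine ⟨fun p => ?_, fun p p' h => ?_, ?_⟩
    · show (List.ofFn (p : Rw n l).1 ++ List.ofFn (p : Rw n l).2).length = _
      rw [List.length_append, List.length_ofFn, List.length_ofFn]
      simp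
    · have h' : List.ofFn (p : Rw n l).1 ++ List.ofFn (p : Rw n l).2 =
          List.ofFn (p' : Rw n l).1 ++ List.ofFn (p' : Rw n l).2 := h
      obtain ⟨e1, e2⟩ := List.append_inj h' (by rw [List.length_ofFn, List.length_ofFn])
      exact Prod.ext (List.ofFn_injective e1) (List.ofFn_injective e2)
    · rw [card_node0, Fintype.card_prod, Fintype.card_fun, Fintype.card_fun, Fintype.card_bool,
        Fintype.card_fin, Fintype.card_fin, ← pow_add]
      simp
  | succ i ih =>
    obtain ⟨h1, h2, h3⟩ := ih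
    have har : (2 ^ (i + 1 + 1) - 1) * l = (2 ^ (i + 1) - 1) * l + 2 ^ (i + 1) * l := by
      rw [← Nat.add_mul]
      congr 1
      have : 1 ≤ 2 ^ (i + 1) := Nat.one_le_two_pow
      have h2 : 2 ^ (i + 1 + 1) = 2 ^ (i + 1) + 2 ^ (i + 1) := by ring
      omega
    refine ⟨fun p => ?_, fun p p' h => ?_, ?_⟩
    · show (nsq n l i p.1 ++ List.ofFn (p.2 : Yq l i)).length = _
      rw [List.length_append, h1, List.length_ofFn, har, add_assoc]
    · have h' : nsq n l i p.1 ++ List.ofFn (p.2 : Yq l i) =
          nsq n l i p'.1 ++ List.ofFn (p'.2 : Yq l i) := h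
      obtain ⟨e1, e2⟩ := List.append_inj h' (by rw [h1, h1])
      exact Prod.ext (h2 _ _ e1) (List.ofFn_injective e2)
    · rw [card_node, h3, Fintype.card_fun, Fintype.card_bool, Fintype.card_fin, ← pow_add, har,
        add_assoc]

end Pool.Agent.H91.NC.NSQ
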